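import Mathlib

/-!
# Metric and edge metric dimension of hypercubes agree for almost all dimensions

If the metric dimension and the edge metric dimension of the hypercube `Q_d` differ, then `d` is even,
`dim Q_d = dim Q_(d-1) + 1` and `edim Q_d = dim Q_(d-1)`; the number of such `d ≤ D` is at most
`16 D / log₂ D`. So the two dimensions agree for all `d` outside a set of density zero.

The proof: a resolving set is edge resolving (parity), two vertices which are not resolved by an
edge resolving set are antipodal, deleting a coordinate turns an edge resolving set of `Q_(d+1)`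
into a resolving set of `Q_d`, and `dim Q_d = O(d / log d)` by the detecting matrices of Lindström
and Cantor-Mills.
-/

set_option autoImplicit false

open Finset

namespace Pool.Agent.Results.MP_41989c_co.AlmostAllDimensions

/-- The hypercube graph `Q_d` on `{0,1}^d`: two vertices are adjacent exactly when they differ in
one coordinate. -/
def Q (d : ℕ) : SimpleGraph (Fin d → Bool) where
  Adj x y := hammingDist x y = 1
  symm := ⟨fun x y h => by rw [hammingDist_comm]; exact h⟩
  loopless := ⟨fun x h => by simp at h⟩

/-- The metric dimension of `Q_d`: the least size of a set `S` of vertices such that every two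
distinct vertices have different distances to some vertex of `S`. -/
noncomputable def dim (d : ℕ) : ℕ :=
  sInf {n : ℕ | ∃ S : Finset (Fin d → Bool), S.card = n ∧
    ∀ u v : Fin d → Bool, u ≠ v → ∃ s ∈ S, (Q d).dist u s ≠ (Q d).dist v s}

/-- The edge metric dimension of `Q_d`: the least size of a nonempty set `S` of vertices such that
every two distinct edges have different distances to some vertex of `S`, where the distance of the
edge `uv` to `s` is the smaller one of the distances of `u` and `v` to `s`. -/
noncomputable def edim (d : ℕ) : ℕ :=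
  sInf {n : ℕ | ∃ S : Finset (Fin d → Bool), S.Nonempty ∧ S.card = n ∧
    ∀ u v x y : Fin d → Bool, (Q d).Adj u v → (Q d).Adj x y →
      s(u, v) ≠ s(x, y) →
      ∃ s ∈ S, min ((Q d).dist u s) ((Q d).dist v s) ≠ min ((Q d).dist x s) ((Q d).dist y s)}

/-! ### Distances in the hypercube -/

lemma hd_sum {ι : Type} [Fintype ι] (u s : ι → Bool) :
    hammingDist u s = ∑ i, if u i ≠ s i then 1 else 0 := by
  classical
  unfold hammingDist
  rw [Finset.card_filter]

lemma exists_walk {d : ℕ} : ∀ (n : ℕ) (x y : Fin d → Bool), hammingDist x y = n →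
    ∃ p : (Q d).Walk x y, p.length = n := by
  intro n
  induction n with
  | zero =>
    intro x y h
    have : x = y := by simpa using h
    subst this
    exact ⟨SimpleGraph.Walk.nil, rfl⟩
  | succ n ih =>
    intro x y h
    have hne : x ≠ y := by
      intro hxy
      subst hxy
      simp at h
    obtain ⟨i, hi⟩ := Function.ne_iff.mp hne
    have h1 : hammingDist x (Function.update x i (y i)) = 1 := by
      unfold hammingDist
      rw [Finset.card_eq_one]
      refine ⟨i, ?_⟩
      ext j
      simp only [Finset.mem_filter, Finset.mem_univ, true_and, Finset.mem_singleton]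
      by_cases hj : j = i
      · subst hj; simp [hi]
      · simp [hj]
    have h2 : hammingDist (Function.update x i (y i)) y = n := by
      unfold hammingDist at h ⊢
      have : (Finset.univ.filter fun j => Function.update x i (y i) j ≠ y j)
          = (Finset.univ.filter fun j => x j ≠ y j).erase i := by
        ext j
        simp only [Finset.mem_filter, Finset.mem_univ, true_and, Finset.mem_erase]
        by_cases hj : j = i
        · subst hj; simp
        · simp [hj]
      rw [this, Finset.card_erase_of_mem (by simpa using hi), h]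
      rfl
    obtain ⟨p, hp⟩ := ih _ _ h2
    refine ⟨SimpleGraph.Walk.cons (show (Q d).Adj x (Function.update x i (y i)) from h1) p, ?_⟩
    simp [hp]

lemma le_length {d : ℕ} {x y : Fin d → Bool} (p : (Q d).Walk x y) : hammingDist x y ≤ p.length := by
  induction p with
  | nil => simp
  | @cons u v w h p ih =>
    have h1 : hammingDist u v = 1 := h
    have := hammingDist_triangle u v w
    simp only [SimpleGraph.Walk.length_cons]
    omega

lemma dist_eq {d : ℕ} (x y : Fin d → Bool) : (Q d).dist x y = hammingDist x y := by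
  obtain ⟨p, hp⟩ := exists_walk _ x y rfl
  refine le_antisymm ?_ ?_
  · rw [← hp]; exact SimpleGraph.dist_le p
  · obtain ⟨q, hq⟩ := (SimpleGraph.Walk.reachable p).exists_walk_length_eq_dist
    rw [← hq]; exact le_length q

/-- number of the coordinates other than `a` in which `u` and `s` differ -/
def off {ι : Type} [Fintype ι] [DecidableEq ι] (a : ι) (u s : ι → Bool) : ℕ :=
  ∑ i ∈ univ.erase a, if u i ≠ s i then 1 else 0

lemma hd_off {ι : Type} [Fintype ι] [DecidableEq ι] (a : ι) (u s : ι → Bool) :
    hammingDist u s = (if u a ≠ s a then 1 else 0) + off a u s := by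
  rw [hd_sum, off]
  exact (Finset.add_sum_erase univ (fun i => if u i ≠ s i then 1 else 0) (Finset.mem_univ a)).symm

lemma off_congr {ι : Type} [Fintype ι] [DecidableEq ι] {a : ι} {u v : ι → Bool}
    (h : ∀ i, i ≠ a → u i = v i) (s : ι → Bool) : off a u s = off a v s := by
  unfold off
  refine Finset.sum_congr rfl fun i hi => ?_
  rw [h i (Finset.ne_of_mem_erase hi)]

lemma min_eq {ι : Type} [Fintype ι] [DecidableEq ι] {a : ι} {u v : ι → Bool}
    (ha : u a ≠ v a) (h : ∀ i, i ≠ a → u i = v i) (s : ι → Bool) :
    min (hammingDist u s) (hammingDist v s) = off a u s := by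
  rw [hd_off a u s, hd_off a v s, ← off_congr h s]
  cases h1 : u a <;> cases h2 : v a <;> cases h3 : s a <;> simp_all

lemma adj_coord {d : ℕ} {u v : Fin d → Bool} (h : (Q d).Adj u v) :
    ∃ a, u a ≠ v a ∧ ∀ i, i ≠ a → u i = v i := by
  have h1 : hammingDist u v = 1 := h
  unfold hammingDist at h1
  rw [Finset.card_eq_one] at h1
  obtain ⟨a, ha⟩ := h1
  refine ⟨a, ?_, ?_⟩
  · have : a ∈ (Finset.univ.filter fun i => u i ≠ v i) := by rw [ha]; simp
    simpa using this
  · intro i hi
    by_contra hc
    have : i ∈ (Finset.univ.filter fun i => u i ≠ v i) := by simpa using hc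
    rw [ha] at this
    exact hi (by simpa using this)

/-! ### Resolving sets -/

/-- the value of a bit in `ZMod 2` -/
def bt (b : Bool) : ZMod 2 := if b then 1 else 0

lemma bt_ne (a b : Bool) : (((if a ≠ b then 1 else 0 : ℕ)) : ZMod 2) = bt a + bt b := by
  cases a <;> cases b <;> simp [bt] <;> decide

lemma off_cast {ι : Type} [Fintype ι] [DecidableEq ι] (a : ι) (u s : ι → Bool) :
    (off a u s : ZMod 2) = (∑ i ∈ univ.erase a, bt (u i)) + ((∑ i, bt (s i)) - bt (s a)) := by
  unfold off
  rw [Nat.cast_sum]
  simp only [bt_ne]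
  rw [Finset.sum_add_distrib]
  congr 1
  rw [← Finset.add_sum_erase _ _ (Finset.mem_univ a)]
  ring

/-- A resolving set of vertices is edge resolving. -/
lemma edge_of_vertex {ι : Type} [Fintype ι] [DecidableEq ι] {S : Finset (ι → Bool)}
    (hS : ∀ u v : ι → Bool, u ≠ v → ∃ s ∈ S, hammingDist u s ≠ hammingDist v s)
    (a b : ι) (u x : ι → Bool) (hne : ¬ (a = b ∧ ∀ i, i ≠ a → u i = x i)) :
    ∃ s ∈ S, off a u s ≠ off b x s := by
  by_contra hcon
  push Not at hcon
  by_cases hab : a = b
  · subst hab
    have h1 : ∀ s ∈ S, hammingDist u s = hammingDist (Function.update x a (u a)) s := by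
      intro s hs
      rw [hd_off a u s, hd_off a (Function.update x a (u a)) s, hcon s hs,
        off_congr (a := a) (u := Function.update x a (u a)) (v := x) (fun i hi => by simp [hi]) s]
      simp
    have h2 : u ≠ Function.update x a (u a) := by
      intro h
      refine hne ⟨rfl, fun i hi => ?_⟩
      have := congrFun h i
      simpa [hi] using this
    obtain ⟨s, hs, hs'⟩ := hS _ _ h2
    exact hs' (h1 s hs)
  · -- the sum of the bits `a` and `b` is constant on `S`
    set c : ZMod 2 := (∑ i ∈ univ.erase a, bt (u i)) + (∑ i ∈ univ.erase b, bt (x i)) with hc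
    have hpar : ∀ s ∈ S, bt (s a) + bt (s b) = c := by
      intro s hs
      have h1 := congrArg (fun n : ℕ => (n : ZMod 2)) (hcon s hs)
      simp only [off_cast] at h1
      have h2 : ∀ z : ZMod 2, z + z = 0 := by decide
      have h3 := h2 (∑ i ∈ univ.erase b, bt (x i))
      have h4 := h2 (bt (s b))
      rw [hc]
      linear_combination (-1 : ZMod 2) * h1 - h3 + h4
    -- two vertices which differ exactly in the coordinates `a` and `b`
    obtain ⟨t, ht⟩ : ∃ t : Bool, ∀ p q : Bool, bt p + bt q = c →
        ((if false ≠ p then 1 else 0) + (if t ≠ q then 1 else 0) : ℕ)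
          = (if true ≠ p then 1 else 0) + (if (!t) ≠ q then 1 else 0) := by
      have : ∀ c : ZMod 2, ∃ t : Bool, ∀ p q : Bool, bt p + bt q = c →
        ((if false ≠ p then 1 else 0) + (if t ≠ q then 1 else 0) : ℕ)
          = (if true ≠ p then 1 else 0) + (if (!t) ≠ q then 1 else 0) := by
        unfold bt
        decide
      exact this c
    set y : ι → Bool := Function.update (fun _ => false) b t with hy
    set y' : ι → Bool := Function.update (Function.update (fun _ => false) b (!t)) a true with hy'
    have hyy : y ≠ y' := by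
      intro h
      have := congrFun h a
      simp [hy, hy', hab] at this
    obtain ⟨s, hs, hs'⟩ := hS y y' hyy
    apply hs'
    have hba : b ∈ univ.erase a := by simp [Ne.symm hab]
    have e1 : hammingDist y s = (if false ≠ s a then 1 else 0) + ((if t ≠ s b then 1 else 0)
        + ∑ i ∈ (univ.erase a).erase b, if false ≠ s i then 1 else 0) := by
      rw [hd_off a y s, off, ← Finset.add_sum_erase _ _ hba]
      congr 1
      · simp [hy, hab]
      · congr 1
        · simp [hy]
        · refine Finset.sum_congr rfl fun i hi => ?_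
          have : i ≠ b := Finset.ne_of_mem_erase hi
          simp [hy, this]
    have e2 : hammingDist y' s = (if true ≠ s a then 1 else 0) + ((if (!t) ≠ s b then 1 else 0)
        + ∑ i ∈ (univ.erase a).erase b, if false ≠ s i then 1 else 0) := by
      rw [hd_off a y' s, off, ← Finset.add_sum_erase _ _ hba]
      congr 1
      · simp [hy']
      · congr 1
        · simp [hy', Ne.symm hab]
        · refine Finset.sum_congr rfl fun i hi => ?_
          have h1 : i ≠ b := Finset.ne_of_mem_erase hi
          have h2 : i ≠ a := Finset.ne_of_mem_erase (Finset.mem_of_mem_erase hi)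
          simp [hy', h1, h2]
    rw [e1, e2, ← add_assoc, ← add_assoc, ht _ _ (hpar s hs)]

/-- resolving sets in terms of the Hamming distance -/
def Res {d : ℕ} (S : Finset (Fin d → Bool)) : Prop :=
  ∀ u v : Fin d → Bool, u ≠ v → ∃ s ∈ S, hammingDist u s ≠ hammingDist v s

/-- edge resolving sets -/
def ERes {d : ℕ} (S : Finset (Fin d → Bool)) : Prop :=
  ∀ u v x y : Fin d → Bool, (Q d).Adj u v → (Q d).Adj x y →
      s(u, v) ≠ s(x, y) →
      ∃ s ∈ S, min (hammingDist u s) (hammingDist v s) ≠ min (hammingDist x s) (hammingDist y s)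

lemma dim_def (d : ℕ) : dim d = sInf {n : ℕ | ∃ S : Finset (Fin d → Bool), S.card = n ∧ Res S} := by
  unfold dim Res
  simp only [dist_eq]

lemma edim_def (d : ℕ) : edim d =
    sInf {n : ℕ | ∃ S : Finset (Fin d → Bool), S.Nonempty ∧ S.card = n ∧ ERes S} := by
  unfold edim ERes
  simp only [dist_eq]

lemma ERes_of_Res {d : ℕ} {S : Finset (Fin d → Bool)} (hS : Res S) : ERes S := by
  intro u v x y huv hxy hne
  obtain ⟨a, ha, ha'⟩ := adj_coord huv
  obtain ⟨b, hb, hb'⟩ := adj_coord hxy
  have h : ¬ (a = b ∧ ∀ i, i ≠ a → u i = x i) := by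
    rintro ⟨hab, hux⟩
    subst hab
    apply hne
    by_cases hux' : u a = x a
    · have e1 : u = x := by
        funext i
        by_cases hi : i = a
        · rw [hi]; exact hux'
        · exact hux i hi
      have e2 : v = y := by
        funext i
        by_cases hi : i = a
        · rw [hi]
          revert ha hb hux'
          cases u a <;> cases v a <;> cases x a <;> cases y a <;> simp
        · rw [← ha' i hi, ← hb' i hi]; exact hux i hi
      rw [e1, e2]
    · have e1 : u = y := by
        funext i
        by_cases hi : i = a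
        · rw [hi]
          revert ha hb hux'
          cases u a <;> cases v a <;> cases x a <;> cases y a <;> simp
        · rw [← hb' i hi]; exact hux i hi
      have e2 : v = x := by
        funext i
        by_cases hi : i = a
        · rw [hi]
          revert ha hb hux'
          cases u a <;> cases v a <;> cases x a <;> cases y a <;> simp
        · rw [← ha' i hi]; exact hux i hi
      rw [e1, e2, Sym2.eq_swap]
  obtain ⟨s, hs, hs'⟩ := edge_of_vertex hS a b u x h
  refine ⟨s, hs, ?_⟩
  rw [min_eq ha ha' s, min_eq hb hb' s]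
  exact hs'

/-- flip a coordinate -/
def flp {d : ℕ} (a : Fin d) (u : Fin d → Bool) : Fin d → Bool := Function.update u a (!(u a))

lemma flp_adj {d : ℕ} (a : Fin d) (u : Fin d → Bool) : (Q d).Adj u (flp a u) := by
  change hammingDist u (flp a u) = 1
  unfold hammingDist
  rw [Finset.card_eq_one]
  refine ⟨a, ?_⟩
  ext j
  simp only [Finset.mem_filter, Finset.mem_univ, true_and, Finset.mem_singleton]
  by_cases hj : j = a
  · subst hj; simp [flp]
  · simp [flp, hj]

/-- Two distinct vertices which agree in a coordinate are resolved by every edge resolving set. -/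
lemma resolved_of_agree {d : ℕ} {S : Finset (Fin d → Bool)} (hS : ERes S) {u v : Fin d → Bool}
    (huv : u ≠ v) {a : Fin d} (ha : u a = v a) :
    ∃ s ∈ S, hammingDist u s ≠ hammingDist v s := by
  have hne : s(u, flp a u) ≠ s(v, flp a v) := by
    intro h
    rw [Sym2.eq_iff] at h
    rcases h with ⟨h, -⟩ | ⟨h, -⟩
    · exact huv h
    · have := congrFun h a
      rw [ha] at this
      simp [flp] at this
  obtain ⟨s, hs, hs'⟩ := hS _ _ _ _ (flp_adj a u) (flp_adj a v) hne
  refine ⟨s, hs, fun h => hs' ?_⟩
  have hu : u a ≠ flp a u a := by simp [flp]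
  have hv : v a ≠ flp a v a := by simp [flp]
  rw [min_eq hu (fun i hi => by simp [flp, hi]) s, min_eq hv (fun i hi => by simp [flp, hi]) s]
  rw [hd_off a u s, hd_off a v s, ha] at h
  omega

/-- antipodal vertices: the distances to `s` have sum `d` -/
lemma antipodal_sum {d : ℕ} {u v : Fin d → Bool} (h : ∀ a, u a ≠ v a) (s : Fin d → Bool) :
    hammingDist u s + hammingDist v s = d := by
  rw [hd_sum, hd_sum, ← Finset.sum_add_distrib]
  have : ∀ i ∈ (univ : Finset (Fin d)), ((if u i ≠ s i then 1 else 0)
      + (if v i ≠ s i then 1 else 0) : ℕ) = 1 := by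
    intro i _
    have := h i
    revert this
    cases u i <;> cases v i <;> cases s i <;> simp
  rw [Finset.sum_congr rfl this]
  simp

lemma Res_of_odd {d : ℕ} (hd : Odd d) {S : Finset (Fin d → Bool)} (hn : S.Nonempty)
    (hS : ERes S) : Res S := by
  intro u v huv
  by_contra hcon
  push Not at hcon
  have hanti : ∀ a, u a ≠ v a := by
    intro a ha
    obtain ⟨s, hs, hs'⟩ := resolved_of_agree hS huv ha
    exact hs' (hcon s hs)
  obtain ⟨s, hs⟩ := hn
  have h1 := antipodal_sum hanti s
  rw [hcon s hs] at h1
  rw [← h1] at hd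
  exact (Nat.not_odd_iff_even.mpr ⟨_, rfl⟩) hd

lemma Res_insert {d : ℕ} {S : Finset (Fin d → Bool)}
    (hS : ERes S) : ∃ T : Finset (Fin d → Bool), T.card ≤ S.card + 1 ∧ Res T := by
  classical
  by_cases hR : Res S
  · exact ⟨S, by omega, hR⟩
  unfold Res at hR
  push Not at hR
  obtain ⟨u, v, huv, hcon⟩ := hR
  have key : ∀ p q : Fin d → Bool, p ≠ q → (∀ s ∈ S, hammingDist p s = hammingDist q s) →
      ∀ a, p a ≠ q a := by
    intro p q hpq h a ha
    obtain ⟨s, hs, hs'⟩ := resolved_of_agree hS hpq ha
    exact hs' (h s hs)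
  have hanti := key u v huv hcon
  refine ⟨insert u S, Finset.card_insert_le _ _, ?_⟩
  intro p q hpq
  by_contra h
  push Not at h
  have hp : ∀ s ∈ S, hammingDist p s = hammingDist q s := fun s hs =>
    h s (Finset.mem_insert_of_mem hs)
  have hpq' := key p q hpq hp
  have hu := h u (Finset.mem_insert_self _ _)
  by_cases hup : u = p
  · subst hup
    rw [hammingDist_self] at hu
    have : q = u := by simpa using hu.symm
    exact hpq this.symm
  · have h2 : ∀ s ∈ S, hammingDist u s = hammingDist p s := by
      intro s hs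
      have e1 := antipodal_sum hanti s
      have e2 := antipodal_sum hpq' s
      have e3 := hcon s hs
      have e4 := hp s hs
      omega
    have h3 := key u p hup h2
    have h4 : q = u := by
      funext i
      have := h3 i
      have h5 := hpq' i
      revert this h5
      cases u i <;> cases p i <;> cases q i <;> simp
    subst h4
    rw [hammingDist_self] at hu
    have h6 : p = q := by simpa using hu
    exact hpq h6

lemma Res_univ (d : ℕ) : Res (univ : Finset (Fin d → Bool)) := by
  intro u v huv
  refine ⟨u, Finset.mem_univ _, ?_⟩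
  rw [hammingDist_self]
  intro h
  exact huv (by simpa using h.symm : v = u).symm

lemma dim_le {d : ℕ} {S : Finset (Fin d → Bool)} (hS : Res S) : dim d ≤ S.card := by
  rw [dim_def]
  exact Nat.sInf_le ⟨S, rfl, hS⟩

lemma dim_spec (d : ℕ) : ∃ S : Finset (Fin d → Bool), S.card = dim d ∧ Res S := by
  have hne : {n : ℕ | ∃ S : Finset (Fin d → Bool), S.card = n ∧ Res S}.Nonempty :=
    ⟨_, univ, rfl, Res_univ d⟩
  have := Nat.sInf_mem hne
  rw [← dim_def] at this
  exact this

lemma edim_le {d : ℕ} {S : Finset (Fin d → Bool)} (hn : S.Nonempty) (hS : ERes S) :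
    edim d ≤ S.card := by
  rw [edim_def]
  exact Nat.sInf_le ⟨S, hn, rfl, hS⟩

lemma edim_spec (d : ℕ) : ∃ S : Finset (Fin d → Bool), S.Nonempty ∧ S.card = edim d ∧ ERes S := by
  have hne : {n : ℕ | ∃ S : Finset (Fin d → Bool), S.Nonempty ∧ S.card = n ∧ ERes S}.Nonempty :=
    ⟨_, univ, univ_nonempty, rfl, ERes_of_Res (Res_univ d)⟩
  have := Nat.sInf_mem hne
  rw [← edim_def] at this
  exact this

lemma edim_le_dim {d : ℕ} (hd : 1 ≤ d) : edim d ≤ dim d := by
  obtain ⟨S, hS, hR⟩ := dim_spec d
  have hn : S.Nonempty := by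
    have : (fun _ : Fin d => false) ≠ (fun _ => true) := by
      intro h
      have := congrFun h ⟨0, hd⟩
      simp at this
    obtain ⟨s, hs, -⟩ := hR _ _ this
    exact ⟨s, hs⟩
  rw [← hS]
  exact edim_le hn (ERes_of_Res hR)

lemma dim_le_edim_add (d : ℕ) : dim d ≤ edim d + 1 := by
  obtain ⟨S, -, hc, hE⟩ := edim_spec d
  obtain ⟨T, hT, hR⟩ := Res_insert hE
  rw [← hc]
  exact (dim_le hR).trans hT

lemma edim_eq_of_odd {d : ℕ} (hd : Odd d) : edim d = dim d := by
  refine le_antisymm (edim_le_dim hd.pos) ?_
  obtain ⟨S, hn, hc, hE⟩ := edim_spec d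
  rw [← hc]
  exact dim_le (Res_of_odd hd hn hE)

/-- Deleting a coordinate. -/
lemma dim_le_edim_succ (d : ℕ) : dim d ≤ edim (d + 1) := by
  classical
  obtain ⟨S, -, hc, hE⟩ := edim_spec (d + 1)
  have hR : Res (S.image fun s : Fin (d + 1) → Bool => fun i : Fin d => s i.castSucc) := by
    intro u v huv
    have hne : (Fin.snoc u false : Fin (d + 1) → Bool) ≠ Fin.snoc v false := by
      intro h
      apply huv
      funext i
      have := congrFun h i.castSucc
      simpa using this
    obtain ⟨s, hs, hs'⟩ := resolved_of_agree hE hne (a := Fin.last d) (by simp)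
    refine ⟨_, Finset.mem_image_of_mem _ hs, fun h => hs' ?_⟩
    rw [hd_sum, hd_sum, Fin.sum_univ_castSucc, Fin.sum_univ_castSucc]
    rw [hd_sum, hd_sum] at h
    simp only [Fin.snoc_castSucc, Fin.snoc_last]
    rw [h]
  calc dim d ≤ _ := dim_le hR
    _ ≤ S.card := Finset.card_image_le
    _ = edim (d + 1) := hc

lemma dim_mono_succ (d : ℕ) : dim d ≤ dim (d + 1) :=
  (dim_le_edim_succ d).trans (edim_le_dim (by omega))

lemma dim_mono : Monotone dim := monotone_nat_of_le_succ dim_mono_succ

lemma dim_succ_le {e : ℕ} (he : 1 ≤ e) : dim (e + 1) ≤ dim e + 1 := by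
  classical
  obtain ⟨S, hS, hR⟩ := dim_spec e
  have hn : S.Nonempty := by
    have : (fun _ : Fin e => false) ≠ (fun _ => true) := by
      intro h
      have := congrFun h ⟨0, he⟩
      simp at this
    obtain ⟨s, hs, -⟩ := hR _ _ this
    exact ⟨s, hs⟩
  obtain ⟨s₀, hs₀⟩ := hn
  have hsnoc : ∀ (u : Fin (e + 1) → Bool) (s : Fin e → Bool) (t : Bool),
      hammingDist u (Fin.snoc s t : Fin (e + 1) → Bool)
        = hammingDist (fun i : Fin e => u i.castSucc) s + if u (Fin.last e) ≠ t then 1 else 0 := by
    intro u s t
    rw [hd_sum, hd_sum, Fin.sum_univ_castSucc]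
    simp only [Fin.snoc_castSucc, Fin.snoc_last]
  have hT : Res (insert (Fin.snoc s₀ true : Fin (e + 1) → Bool)
      (S.image fun s => (Fin.snoc s false : Fin (e + 1) → Bool))) := by
    intro u v huv
    by_contra hcon
    push Not at hcon
    apply huv
    have h0 := hcon _ (Finset.mem_insert_self _ _)
    have h1 : ∀ s ∈ S, _ := fun s hs =>
      hcon _ (Finset.mem_insert_of_mem (Finset.mem_image_of_mem _ hs))
    simp only [hsnoc] at h0 h1
    have h2 := h1 s₀ hs₀
    have hlast : u (Fin.last e) = v (Fin.last e) := by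
      revert h0 h2
      cases u (Fin.last e) <;> cases v (Fin.last e) <;> simp <;> omega
    have hrest : (fun i : Fin e => u i.castSucc) = fun i => v i.castSucc := by
      by_contra hne
      obtain ⟨s, hs, hs'⟩ := hR _ _ hne
      have := h1 s hs
      rw [hlast] at this
      exact hs' (by omega)
    funext i
    refine Fin.lastCases hlast (fun j => ?_) i
    exact congrFun hrest j
  calc dim (e + 1) ≤ _ := dim_le hT
    _ ≤ (S.image fun s => (Fin.snoc s false : Fin (e + 1) → Bool)).card + 1 :=
        Finset.card_insert_le _ _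
    _ ≤ S.card + 1 := Nat.add_le_add_right Finset.card_image_le 1
    _ = dim e + 1 := by rw [hS]

/-! ### Detecting matrices -/

/-- A detecting matrix with entries in `{-1, 0, 1}`. -/
def Det (R C : Type) [Fintype C] : Prop :=
  ∃ M : R → C → ℤ, (∀ i j, M i j = -1 ∨ M i j = 0 ∨ M i j = 1) ∧
    ∀ z : C → ℤ, (∀ j, z j = -1 ∨ z j = 0 ∨ z j = 1) → (∀ i, ∑ j, M i j * z j = 0) → ∀ j, z j = 0

lemma det_step {R C : Type} [Fintype R] [Fintype C] [DecidableEq R] (h : Det R C) :
    Det (R ⊕ R) (C ⊕ C ⊕ R) := by
  obtain ⟨M, hM, hdet⟩ := h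
  refine ⟨fun i j => Sum.elim
    (fun i => Sum.elim (fun j => M i j) (Sum.elim (fun j => M i j) (fun k => if i = k then 1 else 0)) j)
    (fun i => Sum.elim (fun j => M i j) (Sum.elim (fun j => -M i j) (fun _ => 0)) j) i, ?_, ?_⟩
  · rintro (i | i) (j | j | k)
    · simpa using hM i j
    · simpa using hM i j
    · simp only [Sum.elim_inl, Sum.elim_inr]
      split_ifs <;> simp
    · simpa using hM i j
    · simp only [Sum.elim_inl, Sum.elim_inr]
      rcases hM i j with h | h | h <;> simp [h]
    · simp
  · intro z hz hsum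
    have h1 : ∀ i, (∑ j, M i j * z (Sum.inl j)) + ((∑ j, M i j * z (Sum.inr (Sum.inl j)))
        + z (Sum.inr (Sum.inr i))) = 0 := by
      intro i
      have := hsum (Sum.inl i)
      simpa [Fintype.sum_sum_type] using this
    have h2 : ∀ i, (∑ j, M i j * z (Sum.inl j)) - (∑ j, M i j * z (Sum.inr (Sum.inl j))) = 0 := by
      intro i
      have := hsum (Sum.inr i)
      simp only [Sum.elim_inr, Fintype.sum_sum_type, Sum.elim_inl, zero_mul, Finset.sum_const_zero,
        add_zero, neg_mul, Finset.sum_neg_distrib] at this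
      linarith
    have h3 : ∀ i, z (Sum.inr (Sum.inr i)) = 0 := by
      intro i
      have e1 := h1 i
      have e2 := h2 i
      rcases hz (Sum.inr (Sum.inr i)) with h | h | h
      · omega
      · exact h
      · omega
    have h4 : ∀ j, z (Sum.inl j) = 0 := by
      refine hdet (fun j => z (Sum.inl j)) (fun j => hz _) fun i => ?_
      have e1 := h1 i
      have e2 := h2 i
      rw [h3 i] at e1
      change ∑ j, M i j * z (Sum.inl j) = 0
      omega
    have h5 : ∀ j, z (Sum.inr (Sum.inl j)) = 0 := by
      refine hdet (fun j => z (Sum.inr (Sum.inl j))) (fun j => hz _) fun i => ?_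
      have e1 := h1 i
      have e2 := h2 i
      rw [h3 i] at e1
      change ∑ j, M i j * z (Sum.inr (Sum.inl j)) = 0
      omega
    rintro (j | j | j)
    · exact h4 j
    · exact h5 j
    · exact h3 j

lemma det_exists (k : ℕ) : ∃ (R C : Type) (_ : Fintype R) (_ : Fintype C) (_ : DecidableEq R),
    Fintype.card R = 2 ^ k ∧ 2 * Fintype.card C = (k + 2) * 2 ^ k ∧ Det R C := by
  induction k with
  | zero =>
    refine ⟨Unit, Unit, inferInstance, inferInstance, inferInstance, by simp, by simp,
      fun _ _ => 1, fun _ _ => by simp, fun z _ h j => ?_⟩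
    have := h ()
    simpa using this
  | succ k ih =>
    obtain ⟨R, C, _, _, _, hR, hC, hdet⟩ := ih
    refine ⟨R ⊕ R, C ⊕ C ⊕ R, inferInstance, inferInstance, inferInstance, ?_, ?_, det_step hdet⟩
    · rw [Fintype.card_sum, hR]; ring
    · rw [Fintype.card_sum, Fintype.card_sum, hR]
      have : 2 * (Fintype.card C + (Fintype.card C + 2 ^ k))
          = 2 * (2 * Fintype.card C) + 2 * 2 ^ k := by ring
      rw [this, hC]
      ring

lemma dim_le_of_det {R : Type} [Fintype R] {n : ℕ} (h : Det R (Fin n)) :
    dim n ≤ 2 * Fintype.card R := by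
  classical
  obtain ⟨M, hM, hdet⟩ := h
  set f : R × Bool → (Fin n → Bool) := fun p j =>
    if M p.1 j = 1 then false else if M p.1 j = -1 then true else p.2 with hf
  have hR : Res (univ.image f) := by
    intro u v huv
    by_contra hcon
    push Not at hcon
    apply huv
    set z : Fin n → ℤ := fun j => (if u j then 1 else 0) - (if v j then 1 else 0) with hz
    have hz' : ∀ j, z j = -1 ∨ z j = 0 ∨ z j = 1 := by
      intro j
      simp only [hz]
      cases u j <;> cases v j <;> simp
    have hdiff : ∀ s : Fin n → Bool, (hammingDist u s : ℤ) - hammingDist v s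
        = ∑ j, (if s j then -1 else 1) * z j := by
      intro s
      rw [hd_sum, hd_sum]
      push_cast
      rw [← Finset.sum_sub_distrib]
      refine Finset.sum_congr rfl fun j _ => ?_
      simp only [hz]
      cases u j <;> cases v j <;> cases s j <;> simp
    have hzero : ∀ p : R × Bool, ∑ j, (if f p j then -1 else 1) * z j = 0 := by
      intro p
      rw [← hdiff, hcon (f p) (Finset.mem_image_of_mem _ (Finset.mem_univ p))]
      simp
    have hall : ∀ j, z j = 0 := by
      refine hdet z hz' fun i => ?_
      have e1 := hzero (i, false)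
      have e2 := hzero (i, true)
      have e3 : ∑ j, (if f (i, false) j then -1 else 1) * z j
          + ∑ j, (if f (i, true) j then -1 else 1) * z j = 2 * ∑ j, M i j * z j := by
        rw [← Finset.sum_add_distrib, Finset.mul_sum]
        refine Finset.sum_congr rfl fun j _ => ?_
        simp only [hf]
        rcases hM i j with h | h | h <;> simp [h] <;> ring
      rw [e1, e2] at e3
      linarith
    funext j
    have := hall j
    simp only [hz] at this
    revert this
    cases u j <;> cases v j <;> simp
  refine (dim_le hR).trans (Finset.card_image_le.trans ?_)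
  simp [Fintype.card_prod, mul_comm]

lemma dim_le_pow {d k : ℕ} (h : 2 * d ≤ (k + 2) * 2 ^ k) : dim d ≤ 2 * 2 ^ k := by
  obtain ⟨R, C, _, _, _, hR, hC, M, hM, hdet⟩ := det_exists k
  have hd : d ≤ Fintype.card C := by omega
  refine (dim_mono hd).trans ?_
  rw [← hR]
  apply dim_le_of_det
  let e := (Fintype.equivFin C)
  refine ⟨fun i j => M i (e.symm j), fun i j => hM _ _, fun z hz hs j => ?_⟩
  have := hdet (fun c => z (e c)) (fun c => hz _) (fun i => ?_) (e.symm j)
  · simpa using this
  · rw [← hs i]
    rw [← Equiv.sum_comp e (fun j => M i (e.symm j) * z j)]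
    simp

lemma log_mul_dim (D : ℕ) : Nat.log 2 D * dim D ≤ 16 * D := by
  rcases Nat.eq_zero_or_pos D with h0 | hpos
  · subst h0; simp
  have hex : ∃ k : ℕ, 2 * D ≤ (k + 2) * 2 ^ k := by
    refine ⟨D, ?_⟩
    have h1 : D < 2 ^ D := Nat.lt_two_pow_self
    nlinarith
  classical
  have hk := Nat.find_spec hex
  have hmin := fun m (hm : m < Nat.find hex) => Nat.find_min hex hm
  set k := Nat.find hex with hkdef
  have hdim := dim_le_pow hk
  have hlog : Nat.log 2 D ≤ 2 * k := by
    have h1 : k + 2 ≤ 2 ^ (k + 1) := Nat.lt_two_pow_self (n := k + 1)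
    have h2 : 2 * D ≤ 2 ^ (k + 1) * 2 ^ k := hk.trans (Nat.mul_le_mul_right _ h1)
    have h3 : D ≤ 2 ^ (2 * k) := by
      have : 2 ^ (k + 1) * 2 ^ k = 2 * 2 ^ (2 * k) := by
        rw [two_mul k, pow_add, pow_add]; ring
      omega
    calc Nat.log 2 D ≤ Nat.log 2 (2 ^ (2 * k)) := Nat.log_mono_right h3
      _ = 2 * k := Nat.log_pow (by norm_num) _
  rcases Nat.eq_zero_or_pos k with hk0 | hkpos
  · rw [hk0] at hlog
    have : Nat.log 2 D = 0 := by omega
    rw [this]; simp
  · obtain ⟨m, hm⟩ : ∃ m, k = m + 1 := ⟨k - 1, by omega⟩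
    have h1 := hmin m (by omega)
    push Not at h1
    have h2 : (k + 1) * 2 ^ k < 4 * D := by
      rw [hm, pow_succ]
      nlinarith
    calc Nat.log 2 D * dim D ≤ (2 * k) * (2 * 2 ^ k) := Nat.mul_le_mul hlog hdim
      _ ≤ 4 * ((k + 1) * 2 ^ k) := by nlinarith [Nat.zero_le (2 ^ k)]
      _ ≤ 16 * D := by omega

open Classical in
lemma card_exceptions (D : ℕ) :
    ((Finset.Icc 1 D).filter fun d => edim d ≠ dim d).card ≤ dim D := by
  induction D with
  | zero => simp
  | succ D ih =>
    have hI : Finset.Icc 1 (D + 1) = insert (D + 1) (Finset.Icc 1 D) := by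
      ext x; simp only [Finset.mem_Icc, Finset.mem_insert]; omega
    rw [hI, Finset.filter_insert]
    split_ifs with h
    · have h1 : dim D ≠ dim (D + 1) := by
        intro he
        apply h
        refine le_antisymm (edim_le_dim (by omega)) ?_
        rw [← he]
        exact dim_le_edim_succ D
      have h2 := dim_mono_succ D
      have h3 := Finset.card_insert_le (D + 1) ((Finset.Icc 1 D).filter fun d => edim d ≠ dim d)
      omega
    · exact ih.trans (dim_mono_succ D)

open Classical in
/-- If the metric dimension `dim d` and the edge metric dimension `edim d` of the hypercube `Q_d`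
differ, `d ≥ 1`, then `d` is even, `edim d = dim (d - 1)` and `dim d = dim (d - 1) + 1`. For every
`D` the number of such `d ≤ D`, multiplied by `⌊log₂ D⌋`, is at most `16 D`. -/
theorem result :
    (∀ d : ℕ, 1 ≤ d → edim d ≠ dim d →
      Even d ∧ edim d = dim (d - 1) ∧ dim d = dim (d - 1) + 1) ∧
    (∀ D : ℕ, Nat.log 2 D * ((Finset.Icc 1 D).filter fun d => edim d ≠ dim d).card ≤ 16 * D) := by
  refine ⟨fun d hd hne => ?_, fun D => ?_⟩
  · have hev : Even d := by
      by_contra h
      exact hne (edim_eq_of_odd (Nat.not_even_iff_odd.mp h))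
    obtain ⟨e, rfl⟩ : ∃ e, d = e + 1 := ⟨d - 1, by omega⟩
    have he : 1 ≤ e := by
      rcases Nat.eq_zero_or_pos e with h | h
      · subst h; exact absurd hev (by decide)
      · exact h
    have h1 := edim_le_dim hd
    have h2 := dim_le_edim_add (e + 1)
    have h3 := dim_le_edim_succ e
    have h4 := dim_succ_le he
    rw [Nat.add_sub_cancel]
    exact ⟨hev, by omega, by omega⟩
  · exact (Nat.mul_le_mul_left _ (card_exceptions D)).trans (log_mul_dim D)

end Pool.Agent.Results.MP_41989c_co.AlmostAllDimensions
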